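import Pool.Agent.U660.MD.Nef
import Pool.Agent.U189.FV.Top
import Pool.Agent.U189.MG.Trm

/-!
# Termination of all minimal model programs on the modifications of arbitrary varieties with a finite
# morphism to a toric variety

**The varieties.** Let `Y` be any normal projective variety of dimension `n ≥ 1` over `ℂ` with the
function field `K`, and `x 0, ..., x n` sections of an ample line bundle `H` on `Y` without common zeros.
They define a finite morphism from `Y` to the projective `n`-space. `X` is the normalization in `K` of the
toric modification of the projective space which is given by `fan`: a modification of `Y` with a finite
morphism to a toric variety, and a toroidal modification of `Y` if the divisors `x k = 0` have normal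
crossings (see `Pool/Agent/U189/FV/Top.lean`, where the definitions `affine`, `minimalOrder`,
`multiplicities`, `InCone`, `IsFan` and `coefficient` are explained). `D 1, ..., D p` are the pullbacks to
`X` of toric `ℚ`-Cartier divisors; the coefficients of their pullbacks at the prime divisors `P` over `X` are
the `δ i P`.

**The pairs.** If `K_Y` is `ℚ`-linearly equivalent to a rational multiple of `H` and the divisors `x k = 0`
are multiples of divisors with normal crossings, then `K_X + Δ` is a real combination of the `D i` (if they
generate the pullbacks of the toric divisors) for every `Δ` which is the pullback of a toric divisor with
real coefficients, or the sum of such a divisor and of multiples of general members of free linear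
systems which are combinations of the `D i`. Here `Y` can be any Calabi-Yau variety, any abelian variety,
any hyperkähler variety, any variety with ample `K_Y` (`H` is a multiple of `K_Y`), any Fano variety (`H` is
a multiple of `- K_Y`), any smooth complete intersection of dimension `≥ 3`, and any abelian cover of such
a variety which is branched only along the divisors `x k = 0`. These remarks are not used and not
proved here.

**The models.** Let `X'` be a projective variety with a birational map `X --> X'` whose inverse contracts
no divisor, on which the images of the `D i` are `ℚ`-Cartier and some combination of them is ample. The
coefficients of the pullbacks of the images of the `D i` at the prime divisors `P` over `X` are the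
`δ' i P`. The sections of the integral combinations on `X` are sections of the images. Suppose that the
prime divisors `E` on `X` which are contracted are combinations of the `D i`. Then for a combination
`lam = ∑ t E * E + L`, where all `t E > 0` and `L` is the pullback to `X` of an ample combination on `X'`,
the rational combinations near `lam` are semiample on `X'` and their multiples have the same sections
on `X` and on `X'`. This is `IsModel`. If `X` is `ℚ`-factorial and the `D i` generate the divisor classes
(up to `ℚ`-linear equivalence), all `ℚ`-factorial projective varieties `X'` with a birational map
`X --> X'` whose inverse contracts no divisor are models: the small modifications of `X` and their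
divisorial contractions. They are in general not toroidal modifications of `Y`.

**The theorem.** There is a number `B` such that among any `B + 1` models there are two with the same
coefficients (which are isomorphic: the ample combinations and their sections are the same; so there
are at most `B` models of `X`), and such that every sequence of steps of minimal model programs for every
real combination `w = ∑ i, w i * D i` has less than `B` steps. Here a step from `X j` to `X (j + 1)`, a flip or a
divisorial contraction for `w`, is described by the negativity lemma: the coefficients of the pullbacks
of the images of `w` do not increase, and the coefficient at some prime divisor becomes smaller.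

For the pairs above: every sequence of flips (and of divisorial contractions, in any order and with
any choices) for `K_X + Δ` is finite, with less than `B` steps; the number `B` does not depend on `Δ`. No
condition on the singularities is needed (klt, log canonical or none), and `K_X + Δ` can be
pseudo-effective or not. The question is about the case of klt pairs with `K_X + Δ` not
pseudo-effective; there it is known that the program with scaling of an ample divisor terminates, but
not that all sequences of flips do (which are followed here). The variety `S` of the question is a point.

**Relation to the other results.** `MP_89a3f8_ag.NormalCrossingCovers` is the termination of all sequences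
of flips for the abelian covers `Y` of the projective `n`-space which are branched along `n + 1`
hypersurfaces with normal crossings. Here `Y` is arbitrary, and the sequences can contain divisorial
contractions. `MP_89a3f8_ag.FiniteCoverScaling` is about the programs with scaling: their steps exist, and
their ends are described; it says nothing about the other programs.

**Proof.** New is the finite generation of the Cox ring of the `D i` (`Pool/Agent/U189/FV`): the sections
are integral over the sections on the toric variety, and they are contained in a finitely generated
module over the algebra of the monomials in a cone; every `Y` with a finite morphism to the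
projective space is allowed. The bound is deduced from it in `Pool/Agent/U189/MG`: the coefficients on a
model are determined by the set of the cones, generated by degrees of generators of the Cox ring,
which contain the ample combination.
-/

set_option autoImplicit false

open FF MvPolynomial Pool.Agent.W602.GT

namespace Pool.Agent.Results.MP_89a3f8_ag.FiniteCoverPrograms

open Pool.Agent.Results.MP_89a3f8_ag.TerminationOfFlips
  (IsSection BasePointFree Semiample)
open Pool.Agent.U189.ND (affine minimalOrder InCone)
open Pool.Agent.U189.FV

section defs

variable {K : Type} [Field K] [Algebra ℂ K] {p : ℕ} (N : ℕ) (δ : Fin p → Place ℂ K → ℚ)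

/-- The coefficients `δ'` are those of the images of the `D i` on a model `X'` of `X` on which they are
`ℚ`-Cartier and some rational combination of them is ample: all sections of integral combinations on `X`
are sections on `X'`; and for some combination `lam` all rational combinations near `lam` are
semiample on `X'`, and their integral multiples have the same sections on `X` and on `X'`. -/
def IsModel (δ' : Fin p → Place ℂ K → ℚ) : Prop :=
  (∀ (μ : Fin p → ℤ) (f : K), IsSection N δ μ f → IsSection N δ' μ f) ∧
    ∃ (lam : Fin p → ℚ) (ε : ℚ), 0 < ε ∧ ∀ μ : Fin p → ℚ, (∀ i, |μ i - lam i| ≤ ε) →
      Semiample N δ' μ ∧ ∀ (k : ℕ) (ν : Fin p → ℤ), (∀ i, (k : ℚ) * μ i = ν i) →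
        ∀ f : K, IsSection N δ' ν f → IsSection N δ ν f

/-- The coefficients of the real combination `∑ i, w i * D i` do not increase, and some coefficient
becomes smaller: this holds if the model with the coefficients `δ''` is obtained by a divisorial
contraction or a flip for this combination from the one with the coefficients `δ'` (negativity
lemma). -/
def IsStep (w : Fin p → ℝ) (δ' δ'' : Fin p → Place ℂ K → ℚ) : Prop :=
  (∀ P : Place ℂ K, Divisorial N P →
    ∑ i, w i * (δ'' i P : ℝ) ≤ ∑ i, w i * (δ' i P : ℝ)) ∧
  ∃ P : Place ℂ K, Divisorial N P ∧
    ∑ i, w i * (δ'' i P : ℝ) < ∑ i, w i * (δ' i P : ℝ)

end defs

/-- **All minimal model programs terminate.** Let `K` be the function field of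
a normal projective variety `Y` of dimension `n`, `x 0, ..., x n` sections of an ample line bundle without
common zeros, `X` the normalization in `K` of the toric modification of the projective `n`-space which is
given by `fan`, and `D i`, `i < p`, the pullbacks of toric `ℚ`-Cartier divisors with the degrees `β i` and the
coefficients `c i`. There is a number `B` such that
(1) among any `B + 1` models of `X` there are two with the same coefficients of all the images of the
`D i` at all prime divisors over `X`;
(2) every sequence of steps (flips and divisorial contractions) for every real combination of the `D i`
between models of `X` has less than `B` steps. -/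
theorem result (n p : ℕ) (hn : 1 ≤ n) (K : Type) [Field K] [Algebra ℂ K] (x : Fin (n + 1) → K)
    (hx0 : x 0 ≠ 0) (hbas : IsTranscendenceBasis ℂ (affine x))
    (hfin : FiniteDimensional (IntermediateField.adjoin ℂ (Set.range (affine x))) K)
    (fan : Finset (Finset (Fin (n + 1) → ℕ))) (hfan : IsFan fan)
    (c : Fin p → (Fin (n + 1) → ℕ) → ℚ) (β : Fin p → ℤ)
    (u : Finset (Fin (n + 1) → ℕ) → Fin p → Fin (n + 1) → ℚ)
    (hlin : ∀ σ ∈ fan, ∀ i v, (∃ k, v k = 0) → InCone σ v → c i v = ∑ k, u σ i k * v k)
    (δ : Fin p → Place ℂ K → ℚ) (hδ : ∀ i P, δ i P = coefficient x (c i) (β i) P) :
    ∃ B : ℕ,
      (∀ δs : Fin (B + 1) → Fin p → Place ℂ K → ℚ, (∀ j, IsModel n δ (δs j)) →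
        ∃ j j' : Fin (B + 1), j < j' ∧ ∀ P : Place ℂ K, Divisorial n P →
          ∀ i, δs j i P = δs j' i P) ∧
      ∀ (w : Fin p → ℝ) (L : ℕ) (δs : ℕ → Fin p → Place ℂ K → ℚ),
        (∀ j ≤ L, IsModel n δ (δs j)) →
        (∀ j < L, IsStep n w (δs j) (δs (j + 1))) → L < B := by
  have hFG := cox_fv n p hn K x hx0 hbas hfin fan hfan c β u hlin δ hδ
  obtain ⟨B, h1, h2⟩ := Pool.Agent.U189.MG.term_mdl hFG
  have hm : ∀ δ' : Fin p → Place ℂ K → ℚ, IsModel n δ δ' →
      ∃ lam : Fin p → ℚ, Pool.Agent.U189.MG.Mdl n δ δ' lam := by
    rintro δ' ⟨h, lam, h'⟩
    exact ⟨lam, h, h'⟩
  exact ⟨B, fun δs h => h1 δs fun j => hm _ (h j), fun w L δs h hf => h2 w L δs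
    (fun j hj => hm _ (h j hj)) hf⟩

end Pool.Agent.Results.MP_89a3f8_ag.FiniteCoverPrograms
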