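import Pool.Agent.U976.TJ.B

/-!
# Termination of all sequences of flips on finite quotients of toric bundles over minimal varieties

Let `X` be a projective variety of any dimension with klt singularities and nef `K_X`, for instance any
smooth minimal model. Let `Y → X` be a toric bundle: it is given by `n` arbitrary line bundles on `X`, with
the classes `N l`, and by any complete projective fan in `ℝ ^ n`, simplicial or not; so all fibres are the same
projective toric variety `F` of dimension `n`. Let `Z = Y / G`, where `G` is any finite group of automorphisms of
`Y` (it may act on `X`, permute the line bundles and act on the fan, so `Z → X / G` can have any finite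
monodromy and multiple fibres), let `(Z, Δ_Z)` be a log canonical pair, and `K_Y + Δ` the pullback of
`K_Z + Δ_Z`. Assume that `Δ ≥ 0` (this holds if `G` acts freely in codimension one) and one of the following.

* `Δ` is numerically `∑ b i D_i + π^* Δ_X`, where the `D_i` are the torus invariant prime divisors,
  `0 ≤ b i ≤ 1` and `Δ_X` is a nef `ℝ`-divisor on `X`; for instance `Δ = 0`.
* `X` is `ℚ`-factorial and every pseudo-effective class on `X` is nef (for instance `X` is a finite quotient
  of an abelian variety without fixed divisors, a `K3` surface without smooth rational curves, a smooth
  variety with Picard number one, or a product of curves of positive genus whose Jacobians have no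
  homomorphisms to each other), and `Δ` is any effective `ℝ`-divisor, torus invariant or not.

**Theorem.** Every `(K_Z + Δ_Z)`-negative extremal ray of `NE(Z)` is contained in the fibres of `Z → X / G`.
Every sequence of flips (even mixed with divisorial contractions, in any order, without scaling, and over any
base) which starts at `(Z, Δ_Z)` is finite, and its length is less than the number of the complete projective
fans whose rays are rays of the fan of `F`, a bound which depends on nothing else. `Z` need not be
`ℚ`-factorial.

The general fibres are quotients of toric varieties, so `K_Z + Δ_Z` is not pseudo-effective if `Δ` is small,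
for instance `Δ = 0`.

The dictionary, which is not formalized: let `Z = Z_0, Z_1, ...` be a sequence of flips (and divisorial
contractions) and `Y_j` the normalization of `Z_j` in the function field of `Y`; then `K + Δ` on `Y_j` is the
pullback of `K + Δ` on `Z_j`. The pullback `H` to `Y_j` of an ample class of the contraction of an extremal ray
`R` of `Z_j` is nef, and the pushforward to `Z_j` of each nonzero class in the cone of curves of `Y_j` on which `H`
is zero is nonzero and in `R`, so `K + Δ` is negative on this face of the cone of curves of `Y_j`. This is
`IsNegativeFace`. The theorem says that the face is contained in the fibres over `X`, so its contraction is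
fibre by fibre a contraction of toric varieties, and `Y_(j + 1)`, on which `K + Δ + t H` is ample, is the toric
bundle over `X` given by a fan whose rays are rays of the fan of `F`. This is `IsStep`.

In the second case the property `IsLC` of the pair `(Y, Δ)` is obtained as follows (this is not formalized
either). Pass to a small modification of `Y` with a simplicial fan (a subdivision without new rays) and to the
strict transform of `Δ`, which does not change `K + Δ`. Some multiple of each prime component of `Δ` has an
equation which is a sum of semi-invariant sections for the torus, with divisors `∑ e_i D_i + π^* E`, `E ≥ 0`.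
The torus invariant prime divisor `E_w` over `Y` has an invariant valuation, so its value at the equation is
the value at one of these sections. Sums give for each `w` a combination
`∑ (b i + ⟨q, u i⟩) D_i + π^* β`, `β` pseudo-effective, in the class of `Δ` which has the same multiplicity along
`E_w` as `Δ`, and this is at most the log discrepancy.

If `X` is an abelian variety then the negative extremal rays are contained in the fibres by the cone theorem,
as there are no rational curves in `X`. In the other cases `X` can contain many rational curves. The proof of
this part: if for some cone of the fan the restriction of `H = (h, c)` to the corresponding section of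
`Y → X` were not ample, there would be a linear form `ψ ≠ 0` on `N^1(X)` which is nonnegative on the nef cone and
zero on this restriction; the curves with the class `ψ` in the section given by a cone of the fan which
contains the vector `ψ (N l)` have a smallest class, up to curves in the fibres, so `H` is zero on it, but
`K_Y + Δ` is nonnegative on it by the property `IsLC` for this vector. So all these restrictions are ample, and
`H` stays nef when it is changed by a small class of `X`. For the termination: the support functions of
`K_Y + Δ` on the fans change in one direction in all steps, and if one of them were unchanged then the ample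
class `K + Δ + t H` on `Y'` would be nef on `Y`, but it is negative on the face.

The definitions are in `Pool.Agent.U976.LT.Defs` (`pr` and `IsNef`), `Pool.Agent.U976.TG.Defs` and
`Pool.Agent.U976.TJ.Defs` (`IsNegativeFace`, `IsStep` and `IsLC`).
-/

set_option autoImplicit false

namespace Pool.Agent.Results.MP_89a3f8_ag.FiniteQuotients

open Pool.Agent.U976.LT (pr IsNef)
open Pool.Agent.U976.TG Pool.Agent.U976

/-- Let `W` be a real normed space (`N^1(X)`), `C` a convex cone in it with nonempty interior (the nef
cone), `κ ∈ C` (the class of `K_X`), `N l ∈ W`, `l < n`, and `Y` the toric bundle given by the `N l` and a
complete projective fan `S` with rays generated by vectors `u i`.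
1. The classes `∑ b i D_i + π^* α`, `0 ≤ b i ≤ 1`, `α` nef, have the property `IsLC`.
2. Let `(b, α)` be a class (of `Δ`) with this property, such that `K + Δ` is `ℝ`-Cartier, and
   `T 0 = S, T 1, ..., T m` the fans in a sequence of steps for `K + Δ`, each of which contracts a negative face
   of any dimension. Then `m` is less than the number of the complete projective fans with rays generated by
   some of the `u i`, and the pushforward to `X` of every element of a face of the last variety (so of each of
   them) on which `K + Δ` is negative is zero. -/
theorem result {ι : Type*} [Fintype ι] {n : ℕ} {W : Type*} [NormedAddCommGroup W] [NormedSpace ℝ W]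
    (C : Set W) (hadd : ∀ x ∈ C, ∀ y ∈ C, x + y ∈ C)
    (hsmul : ∀ t : ℝ, 0 ≤ t → ∀ x ∈ C, t • x ∈ C) (hint : (interior C).Nonempty) (κ : W) (hκ : κ ∈ C)
    (N : Fin n → W) (u : ι → Fin n → ℤ) (S : Set (Set ι)) (hS : IsFan u S) :
    (∀ (b : ι → ℝ) (α : W), (∀ i, 0 ≤ b i) → (∀ i, b i ≤ 1) → α ∈ C → TJ.IsLC u S C N b α) ∧
    ∀ (b : ι → ℝ) (α : W), TJ.IsLC u S C N b α → IsCartier u S (fun i => b i - 1) →
      ∀ (m : ℕ) (T : ℕ → Set (Set ι)), T 0 = S →
      (∀ j < m, TJ.IsStep u (T j) (T (j + 1)) C N (fun i => b i - 1) (κ + α)) →
        m < Nat.card {S' : Set (Set ι) // IsFan u S'} ∧
        ∀ (h : ι → ℝ) (c : W), TJ.IsNegativeFace u (T m) C N (fun i => b i - 1) (κ + α) h c →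
          ∀ R ∈ NE u (T m) C N, deg R h c = 0 → R.2 = 0 := by
  refine ⟨fun b α h0 h1 hα => TJ.lc_toric h0 h1 hα, fun b α hb hK m T h0 hT => ?_⟩
  obtain ⟨h1, h2, h3⟩ := TJ.programs hS hK hb h0 hT
  exact ⟨h1, fun h c hs R hR hR0 => TJ.vertical h2 hadd hsmul hint hκ h3 hs hR hR0⟩

end Pool.Agent.Results.MP_89a3f8_ag.FiniteQuotients
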